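import Mathlib

set_option autoImplicit false

/-!
`S₁(Γ, Ω)` is hereditary for `F_σ` subsets of sets of reals.
-/

namespace Pool.Agent.Results.MP_26524f_gt.OneSelection

/-- `𝒰` is an open γ-cover of the set of reals `X`: a family of relatively open proper subsets of
`X`, covering `X`, infinite, and such that each point of `X` is outside only finitely many
members. -/
def GammaCover (X : Set ℝ) (𝒰 : Set (Set ℝ)) : Prop :=
  (∀ U ∈ 𝒰, ∃ V : Set ℝ, IsOpen V ∧ U = V ∩ X) ∧ X ∉ 𝒰 ∧ X ⊆ ⋃₀ 𝒰 ∧ 𝒰.Infinite ∧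
    ∀ x ∈ X, {U ∈ 𝒰 | x ∉ U}.Finite

/-- `𝒰` is an open ω-cover of the set of reals `X`: a family of relatively open proper subsets of
`X`, covering `X`, such that each finite subset of `X` is contained in a member. -/
def OmegaCover (X : Set ℝ) (𝒰 : Set (Set ℝ)) : Prop :=
  (∀ U ∈ 𝒰, ∃ V : Set ℝ, IsOpen V ∧ U = V ∩ X) ∧ X ∉ 𝒰 ∧ X ⊆ ⋃₀ 𝒰 ∧
    ∀ F : Finset ℝ, (↑F : Set ℝ) ⊆ X → ∃ U ∈ 𝒰, (↑F : Set ℝ) ⊆ U

/-- `X` satisfies `S₁(Γ, Ω)`: from every sequence of open γ-covers of `X` one can pick one member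
each so that the picked sets form an open ω-cover of `X`. -/
def S1GammaOmega (X : Set ℝ) : Prop :=
  ∀ 𝒰 : ℕ → Set (Set ℝ), (∀ n, GammaCover X (𝒰 n)) →
    ∃ U : ℕ → Set ℝ, (∀ n, U n ∈ 𝒰 n) ∧ OmegaCover X (Set.range U)

/-- One closed piece. -/
theorem closed_piece {X Y C : Set ℝ} (hC : IsClosed C) (hXC : X ∩ C ⊆ Y) (hX : S1GammaOmega X)
    (𝒰 : ℕ → Set (Set ℝ)) (h𝒰 : ∀ n, GammaCover Y (𝒰 n)) :
    ∃ G : ℕ → Set ℝ, (∀ n, G n ∈ 𝒰 n) ∧
      ∀ F : Finset ℝ, (↑F : Set ℝ) ⊆ X ∩ C → ∃ n, (↑F : Set ℝ) ⊆ G n := by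
  classical
  have hne : ∀ n, ∃ U, U ∈ 𝒰 n := fun n => (h𝒰 n).2.2.2.1.nonempty
  by_cases hA : ∃ n, ∃ U ∈ 𝒰 n, X ∩ C ⊆ U
  · obtain ⟨n₀, U₀, hU₀, hsub⟩ := hA
    choose W hW using hne
    refine ⟨fun n => if n = n₀ then U₀ else W n, fun n => ?_, fun F hF => ?_⟩
    · by_cases hn : n = n₀
      · subst hn
        simpa using hU₀
      · simp only [if_neg hn]
        exact hW n
    · refine ⟨n₀, ?_⟩
      simp only [if_true]
      exact hF.trans hsub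
  · push Not at hA
    have hVex : ∀ n, ∀ U ∈ 𝒰 n, ∃ V : Set ℝ, IsOpen V ∧ U = V ∩ Y := fun n => (h𝒰 n).1
    choose! V hVo hVU using hVex
    let T : ℕ → Set ℝ → Set ℝ := fun n U => (V n U ∪ Cᶜ) ∩ X
    have hT : ∀ n, ∀ U ∈ 𝒰 n, ∀ x ∈ X ∩ C, x ∈ T n U → x ∈ U := by
      intro n U hU x hx hxT
      rcases hxT.1 with h1 | h1
      · rw [hVU n U hU]
        exact ⟨h1, hXC hx⟩
      · exact absurd hx.2 h1
    have hT' : ∀ n, ∀ U ∈ 𝒰 n, ∀ x ∈ X, x ∉ T n U → x ∈ Y ∧ x ∉ U := by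
      intro n U hU x hx hxT
      have hxC : x ∈ C := by
        by_contra h
        exact hxT ⟨Or.inr h, hx⟩
      refine ⟨hXC ⟨hx, hxC⟩, fun hxU => hxT ⟨Or.inl ?_, hx⟩⟩
      rw [hVU n U hU] at hxU
      exact hxU.1
    have hfin : ∀ n, ∀ x ∈ X, {U ∈ 𝒰 n | x ∉ T n U}.Finite := by
      intro n x hx
      by_cases hxY : x ∈ Y
      · refine ((h𝒰 n).2.2.2.2 x hxY).subset ?_
        rintro U ⟨hU, hxU⟩
        exact ⟨hU, (hT' n U hU x hx hxU).2⟩
      · have : {U ∈ 𝒰 n | x ∉ T n U} = ∅ := by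
          rw [Set.eq_empty_iff_forall_notMem]
          rintro U ⟨hU, hxU⟩
          exact hxY (hT' n U hU x hx hxU).1
        rw [this]
        exact Set.finite_empty
    obtain ⟨W, hW, -, -, -, hω⟩ := hX (fun n => T n '' 𝒰 n) (by
      intro n
      refine ⟨?_, ?_, ?_, ?_, ?_⟩
      · rintro _ ⟨U, hU, rfl⟩
        exact ⟨V n U ∪ Cᶜ, (hVo n U hU).union hC.isOpen_compl, rfl⟩
      · rintro ⟨U, hU, hUX⟩
        refine hA n U hU (fun x hx => hT n U hU x hx ?_)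
        rw [hUX]
        exact hx.1
      · intro x hx
        obtain ⟨U, hU, hxU⟩ := (h𝒰 n).2.2.2.1.exists_notMem_finite (hfin n x hx)
        refine ⟨T n U, ⟨U, hU, rfl⟩, ?_⟩
        by_contra h
        exact hxU ⟨hU, h⟩
      · intro himg
        have hex : ∃ W ∈ T n '' 𝒰 n, {U ∈ 𝒰 n | T n U = W}.Infinite := by
          by_contra hcon
          push Not at hcon
          refine (h𝒰 n).2.2.2.1 ((himg.biUnion hcon).subset ?_)
          intro U hU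
          exact Set.mem_biUnion (Set.mem_image_of_mem _ hU) ⟨hU, rfl⟩
        obtain ⟨W, ⟨U₀, hU₀, hW⟩, hinf⟩ := hex
        refine hA n U₀ hU₀ (fun x hx => hT n U₀ hU₀ x hx ?_)
        obtain ⟨U, hU, hxU⟩ := hinf.exists_notMem_finite (hfin n x hx.1)
        have hxT : x ∈ T n U := by
          by_contra h
          exact hxU ⟨hU.1, h⟩
        rw [hU.2] at hxT
        rw [hW]
        exact hxT
      · intro x hx
        refine ((hfin n x hx).image (T n)).subset ?_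
        rintro _ ⟨⟨U, hU, rfl⟩, hxU⟩
        exact ⟨U, ⟨hU, hxU⟩, rfl⟩)
    choose G hG hGT using hW
    refine ⟨G, hG, fun F hF => ?_⟩
    obtain ⟨_, ⟨n, rfl⟩, hFW⟩ := hω F (hF.trans Set.inter_subset_left)
    refine ⟨n, fun x hx => ?_⟩
    refine hT n _ (hG n) x (hF hx) ?_
    rw [hGT n]
    exact hFW hx

/-- If a set of reals `X` satisfies `S₁(Γ, Ω)`, then so does every subset of `X` which is a
countable union of relatively closed subsets of `X`. -/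
theorem result : ∀ X Y : Set ℝ,
    (∃ K : ℕ → Set ℝ, (∀ n, IsClosed (K n)) ∧ Y = X ∩ (⋃ n, K n)) →
    S1GammaOmega X → S1GammaOmega Y := by
  classical
  intro X Y hY hX 𝒰 h𝒰
  obtain ⟨K, hK, hYK⟩ := hY
  let C : ℕ → Set ℝ := fun k => ⋃ i ∈ Finset.range (k + 1), K i
  have hC : ∀ k, IsClosed (C k) := fun k => isClosed_biUnion_finset fun i _ => hK i
  have hXC : ∀ k, X ∩ C k ⊆ Y := by
    rintro k x ⟨hx, hxC⟩
    obtain ⟨i, -, hi⟩ := Set.mem_iUnion₂.1 hxC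
    rw [hYK]
    exact ⟨hx, Set.mem_iUnion.2 ⟨i, hi⟩⟩
  have hYX : Y ⊆ X := by
    rw [hYK]
    exact Set.inter_subset_left
  have key := fun k : ℕ => closed_piece (hC k) (hXC k) hX (fun n => 𝒰 (Nat.pair k n))
    (fun n => h𝒰 (Nat.pair k n))
  choose G hG hω using key
  have hsub : ∀ m : ℕ, G m.unpair.1 m.unpair.2 ∈ 𝒰 m := by
    intro m
    have h := hG m.unpair.1 m.unpair.2
    rwa [Nat.pair_unpair] at h
  have hcov : ∀ F : Finset ℝ, (↑F : Set ℝ) ⊆ Y →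
      ∃ U ∈ Set.range (fun m : ℕ => G m.unpair.1 m.unpair.2), (↑F : Set ℝ) ⊆ U := by
    intro F hF
    have hex : ∀ x ∈ F, ∃ i, x ∈ K i := by
      intro x hx
      have h1 := hF hx
      rw [hYK] at h1
      exact Set.mem_iUnion.1 h1.2
    choose! i hi using hex
    have hFC : (↑F : Set ℝ) ⊆ X ∩ C (F.sup i) := by
      intro x hx
      refine ⟨hYX (hF hx), Set.mem_iUnion₂.2 ⟨i x, ?_, hi x hx⟩⟩
      exact Finset.mem_range.2 (Nat.lt_succ_of_le (Finset.le_sup hx))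
    obtain ⟨n, hFU⟩ := hω (F.sup i) F hFC
    refine ⟨_, ⟨Nat.pair (F.sup i) n, rfl⟩, ?_⟩
    simp only [Nat.unpair_pair]
    exact hFU
  refine ⟨fun m => G m.unpair.1 m.unpair.2, hsub, ?_, ?_, ?_, hcov⟩
  · rintro _ ⟨m, rfl⟩
    exact (h𝒰 m).1 _ (hsub m)
  · rintro ⟨m, hm⟩
    refine (h𝒰 m).2.1 ?_
    rw [← hm]
    exact hsub m
  · intro x hx
    obtain ⟨U, hU, hxU⟩ := hcov {x} (by simpa using hx)
    exact ⟨U, hU, hxU (by simp)⟩

end Pool.Agent.Results.MP_26524f_gt.OneSelection
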